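import Pool.Agent.Helper52.FO.Defs

/-!
The blocks: cyclic order, fans, disjointness.
-/

set_option autoImplicit false

namespace Pool.Agent.Helper52.FO

open Finset

variable {m : ℕ}

theorem off_cases (i j : Fin m) :
    (i.val ≤ j.val ∧ off i j = j.val - i.val) ∨ (j.val < i.val ∧ off i j = j.val + m - i.val) := by
  have hi := i.isLt
  have hj := j.isLt
  unfold off
  rcases Nat.lt_or_ge j.val i.val with h | h
  · right
    refine ⟨h, ?_⟩
    rw [Nat.mod_eq_of_lt (by omega)]
    omega
  · left
    refine ⟨h, ?_⟩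
    have e : j.val + (m - i.val) = (j.val - i.val) + m := by omega
    rw [e, Nat.add_mod_right, Nat.mod_eq_of_lt (by omega)]

theorem off_lt (i j : Fin m) : off i j < m := by
  have hi := i.isLt
  have hj := j.isLt
  rcases off_cases i j with ⟨h1, h2⟩ | ⟨h1, h2⟩ <;> omega

theorem off_self (i : Fin m) : off i i = 0 := by
  rcases off_cases i i with ⟨h1, h2⟩ | ⟨h1, h2⟩ <;> omega

theorem off_inj {i j j' : Fin m} (h : off i j = off i j') : j = j' := by
  have hi := i.isLt
  have hj := j.isLt
  have hj' := j'.isLt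
  apply Fin.ext
  rcases off_cases i j with ⟨h1, h2⟩ | ⟨h1, h2⟩ <;>
    rcases off_cases i j' with ⟨h3, h4⟩ | ⟨h3, h4⟩ <;> omega

theorem off_eq_zero {i j : Fin m} (h : off i j = 0) : j = i :=
  off_inj (h.trans (off_self i).symm)

theorem arc {i i' j : Fin m} (hne : i ≠ i') (h : off i i' < off i j) :
    off i' j < off i' i := by
  have hi := i.isLt
  have hj := j.isLt
  have hj' := i'.isLt
  have hne' : i.val ≠ i'.val := fun e => hne (Fin.ext e)
  rcases off_cases i j with ⟨h1, h2⟩ | ⟨h1, h2⟩ <;>
    rcases off_cases i i' with ⟨h3, h4⟩ | ⟨h3, h4⟩ <;>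
      rcases off_cases i' j with ⟨h5, h6⟩ | ⟨h5, h6⟩ <;>
        rcases off_cases i' i with ⟨h7, h8⟩ | ⟨h7, h8⟩ <;> omega

variable {p : Fin m → ℕ}

theorem alt_ne (x : Blk p) (h : Hb p) : alt x h ≠ x h.1 := by
  unfold alt
  split_ifs with h1
  · rw [h1]
    exact (Fin.succ_ne_zero _).symm
  · exact fun e => h1 e.symm

theorem alt_inj (x : Blk p) {i : Fin m} {s s' : Fin (p i)}
    (h : alt x ⟨i, s⟩ = alt x ⟨i, s'⟩) : s = s' := by
  unfold alt at h
  simp only at h
  split_ifs at h with h1 h2 h2
  · exact Fin.succ_injective _ (h1.symm.trans h2)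
  · exact absurd h.symm (Fin.succ_ne_zero _)
  · exact absurd h (Fin.succ_ne_zero _)
  · exact Fin.succ_injective _ h

/-- the vertex `x` with the coordinates `i, i + 1, …, i + t` (cyclically) replaced by those of `a` -/
def fan (x a : Blk p) (i : Fin m) (t : ℕ) : Blk p := fun j => if off i j ≤ t then a j else x j

theorem fan_last (x a : Blk p) (i : Fin m) {t : ℕ} (ht : m ≤ t + 1) : fan x a i t = a := by
  funext j
  have := off_lt i j
  simp only [fan]
  rw [if_pos (by omega)]

theorem fan_self (x a : Blk p) (i : Fin m) (t : ℕ) : fan x a i t i = a i := by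
  simp only [fan, off_self, Nat.zero_le, if_true]

theorem fan_zero (x a : Blk p) (i : Fin m) (h : a i ≠ x i) : One x (fan x a i 0) := by
  refine ⟨i, ?_, ?_⟩
  · rw [fan_self]
    exact fun e => h e.symm
  · intro j hj
    simp only [fan]
    rw [if_neg]
    intro h0
    exact hj (off_eq_zero (Nat.le_zero.mp h0))

theorem fan_step (x a : Blk p) (i : Fin m) (t : ℕ) :
    fan x a i t = fan x a i (t + 1) ∨ One (fan x a i t) (fan x a i (t + 1)) := by
  by_cases h : ∃ j, fan x a i t j ≠ fan x a i (t + 1) j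
  · right
    obtain ⟨j, hj⟩ := h
    refine ⟨j, hj, ?_⟩
    intro j' hj'
    have key : ∀ j'', fan x a i t j'' ≠ fan x a i (t + 1) j'' → off i j'' = t + 1 := by
      intro j'' h1
      by_contra h2
      apply h1
      simp only [fan]
      by_cases h3 : off i j'' ≤ t
      · rw [if_pos h3, if_pos (by omega)]
      · rw [if_neg h3, if_neg (by omega)]
    by_contra h1
    exact hj' (off_inj ((key j' h1).trans (key j hj).symm))
  · left
    push Not at h
    exact funext h

theorem fan_disj {x a a' : Blk p} {i i' : Fin m} {t t' : ℕ}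
    (ha : ∀ j, a j ≠ x j) (ha' : ∀ j, a' j ≠ x j)
    (h : fan x a i t = fan x a' i' t') (hne : i ≠ i') : a = a' := by
  have hiff : ∀ j, off i j ≤ t ↔ off i' j ≤ t' := by
    intro j
    have hj := congrFun h j
    simp only [fan] at hj
    constructor
    · intro h1
      by_contra h2
      rw [if_pos h1, if_neg h2] at hj
      exact ha j hj
    · intro h1
      by_contra h2
      rw [if_neg h2, if_pos h1] at hj
      exact ha' j hj.symm
  have h1 : off i i' ≤ t := (hiff i').mpr (by rw [off_self]; exact Nat.zero_le _)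
  have h2 : off i' i ≤ t' := (hiff i).mp (by rw [off_self]; exact Nat.zero_le _)
  have hall : ∀ j, off i j ≤ t := by
    intro j
    rcases Nat.lt_or_ge (off i i') (off i j) with h3 | h3
    · have h4 := arc hne h3
      exact (hiff j).mpr (by omega)
    · omega
  funext j
  have hj := congrFun h j
  simp only [fan] at hj
  rw [if_pos (hall j), if_pos ((hiff j).mp (hall j))] at hj
  exact hj

/-- two different paths in a block meet in the last vertex only -/
theorem path_disj {x y : Blk p} {i i' : Fin m} {w : Fin (p i + 1)} {w' : Fin (p i' + 1)}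
    {t t' : ℕ} (hw : w ≠ x i) (hw' : w' ≠ x i')
    (h : fan x (Function.update y i w) i t = fan x (Function.update y i' w') i' t')
    (hne : i ≠ i') : fan x (Function.update y i w) i t = y := by
  have h1 := congrFun h i
  rw [fan_self, Function.update_self] at h1
  have h2 := congrFun h i'
  rw [fan_self, Function.update_self] at h2
  simp only [fan] at h1 h2
  have h3 : off i' i ≤ t' := by
    by_contra h3
    rw [if_neg h3] at h1
    exact hw h1
  have h4 : off i i' ≤ t := by
    by_contra h4
    rw [if_neg h4] at h2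
    exact hw' h2.symm
  rw [if_pos h3, Function.update_of_ne hne] at h1
  rw [if_pos h4, Function.update_of_ne hne.symm] at h2
  have e1 : Function.update y i w = y := by rw [h1, Function.update_eq_self]
  have e2 : Function.update y i' w' = y := by rw [← h2, Function.update_eq_self]
  rw [e1, e2] at h
  rw [e1]
  funext j
  by_cases h5 : off i j ≤ t
  · simp only [fan]
    rw [if_pos h5]
  · rw [h]
    simp only [fan]
    rw [if_pos]
    have := arc (j := j) hne (by omega)
    omega

theorem mod_cases {A δ Q : ℕ} (hA : A < Q) (hδ : δ < Q) :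
    (A + δ) % Q = A + δ ∨ (A + δ) % Q + Q = A + δ := by
  rcases Nat.lt_or_ge (A + δ) Q with h | h
  · left
    exact Nat.mod_eq_of_lt h
  · right
    have e : A + δ = (A + δ - Q) + Q := by omega
    have h2 : (A + δ) % Q = A + δ - Q := by
      conv_lhs => rw [e]
      rw [Nat.add_mod_right, Nat.mod_eq_of_lt (by omega)]
    omega

theorem att_ne {Q : ℕ} (hQ : 2 * m < Q) {h h' : Hb p} {a : Blk p} (h1 : Att Q h a)
    (h2 : Att Q h' a) : h.1 = h'.1 := by
  by_contra hne
  obtain ⟨_, δ, d1, d2, d3⟩ := h1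
  obtain ⟨_, δ', d1', d2', d3'⟩ := h2
  have e1 := d3 h'.1 (fun e => hne e.symm)
  have e2 := d3' h.1 hne
  generalize (a h.1).val = A at *
  generalize (a h'.1).val = A' at *
  have l1 : A' < Q := by rw [e1]; exact Nat.mod_lt _ (by omega)
  have l2 : A < Q := by rw [e2]; exact Nat.mod_lt _ (by omega)
  have c1 := mod_cases (δ := δ) l2 (by omega)
  have c2 := mod_cases (δ := δ') l1 (by omega)
  omega

theorem exists_target {Q : ℕ} (hQ : 2 * m < Q) (hQp : ∀ i, Q ≤ p i + 1) (x : Blk p) (h : Hb p) :
    ∃ a : Blk p, Att Q h a ∧ a h.1 = alt x h ∧ ∀ j, a j ≠ x j := by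
  have hm := h.1.isLt
  set τ := (alt x h).val with hτ
  obtain ⟨δ, d1, d2, d3⟩ : ∃ δ, 1 ≤ δ ∧ δ ≤ m ∧ ∀ j, j ≠ h.1 → (x j).val ≠ (τ + δ) % Q := by
    by_contra hcon
    push Not at hcon
    have hc : ∀ δ, ∃ j : Fin m, 1 ≤ δ → δ ≤ m → j ≠ h.1 ∧ (x j).val = (τ + δ) % Q := by
      intro δ
      by_cases h1 : 1 ≤ δ ∧ δ ≤ m
      · obtain ⟨j, hj1, hj2⟩ := hcon δ h1.1 h1.2
        exact ⟨j, fun _ _ => ⟨hj1, hj2⟩⟩
      · exact ⟨h.1, fun h2 h3 => absurd ⟨h2, h3⟩ h1⟩
    choose f hf using hc
    have h1 : (Finset.Icc 1 m).card ≤ (Finset.univ.erase h.1).card := by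
      refine Finset.card_le_card_of_injOn f ?_ ?_
      · intro δ hδ
        have hδ' := Finset.mem_Icc.mp (Finset.mem_coe.mp hδ)
        exact Finset.mem_coe.mpr (Finset.mem_erase.mpr ⟨(hf δ hδ'.1 hδ'.2).1, Finset.mem_univ _⟩)
      · intro δ hδ δ' hδ' he
        have q1 := Finset.mem_Icc.mp (Finset.mem_coe.mp hδ)
        have q2 := Finset.mem_Icc.mp (Finset.mem_coe.mp hδ')
        have r1 := (hf δ q1.1 q1.2).2
        have r2 := (hf δ' q2.1 q2.2).2
        rw [he] at r1
        have r3 : (τ + δ) % Q = (τ + δ') % Q := r1.symm.trans r2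
        have r4 : δ ≡ δ' [MOD Q] := Nat.ModEq.add_left_cancel' τ r3
        exact Nat.ModEq.eq_of_lt_of_lt r4 (by omega) (by omega)
    rw [Finset.card_erase_of_mem (Finset.mem_univ _), Finset.card_univ, Fintype.card_fin,
      Nat.card_Icc] at h1
    omega
  have hlt : ∀ j, (τ + δ) % Q < p j + 1 := fun j =>
    lt_of_lt_of_le (Nat.mod_lt _ (by omega)) (hQp j)
  refine ⟨Function.update (fun j => ⟨(τ + δ) % Q, hlt j⟩) h.1 (alt x h), ⟨?_, δ, d1, d2, ?_⟩, ?_, ?_⟩
  · rw [Function.update_self]
    unfold alt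
    split_ifs
    · left; rfl
    · right; rfl
  · intro j hj
    rw [Function.update_of_ne hj, Function.update_self]
  · rw [Function.update_self]
  · intro j
    by_cases hj : j = h.1
    · subst hj
      rw [Function.update_self]
      exact alt_ne x h
    · rw [Function.update_of_ne hj]
      intro e
      exact d3 j hj (by rw [← e])

end Pool.Agent.Helper52.FO
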