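import Pool.Agent.Helper52.FO.Defs

/-!
Number of edges of the construction: count the ordered pairs of adjacent vertices. They are in the images of: pairs of hubs;
(hub, further vertex) and the reverse; (block number, `x`, hub `h`) for the pair `x`, `Function.update x h.1 (alt x h)`;
(block number, hub, one of two values, `δ - 1`) for the attached vertices, and the reverse.
-/

set_option autoImplicit false

namespace Pool.Agent.Helper52.FO

open Pool.Agent.Helper68 Finset

theorem card_Hb {m : ℕ} (p : Fin m → ℕ) : Fintype.card (Hb p) = ∑ i, p i := by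
  unfold Hb
  rw [Fintype.card_sigma]
  simp

theorem exists_alt {m : ℕ} {p : Fin m → ℕ} {x y : Blk p} (h : One x y) :
    ∃ h : Hb p, y = Function.update x h.1 (alt x h) := by
  obtain ⟨i, hi, hj⟩ := h
  have key : ∃ s : Fin (p i), alt x ⟨i, s⟩ = y i := by
    by_cases hy : y i = 0
    · have hx : x i ≠ 0 := fun e => hi (by rw [e, hy])
      obtain ⟨s, hs⟩ := Fin.exists_succ_eq.2 hx
      refine ⟨s, ?_⟩
      unfold alt
      simp only
      rw [if_pos hs.symm, hy]
    · obtain ⟨s, hs⟩ := Fin.exists_succ_eq.2 hy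
      refine ⟨s, ?_⟩
      unfold alt
      simp only
      rw [if_neg (fun e => hi (by rw [e, hs])), hs]
  obtain ⟨s, hs⟩ := key
  refine ⟨⟨i, s⟩, ?_⟩
  funext j
  by_cases hji : j = i
  · subst hji
    rw [hs, Function.update_self]
  · rw [Function.update_of_ne hji]
    exact (hj j hji).symm

/-- The vertices attached to a hub. -/
def attv {m : ℕ} (p : Fin m → ℕ) (Q : ℕ) (hQ : 1 ≤ Q) (hQp : ∀ i, Q ≤ p i + 1) (h : Hb p) (t : Bool)
    (e : Fin m) : Blk p :=
  Function.update (fun j => ⟨(((if t then h.2.succ else 0 : Fin (p h.1 + 1)) : ℕ) + (e.val + 1)) % Q,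
    lt_of_lt_of_le (Nat.mod_lt _ hQ) (hQp j)⟩) h.1 (if t then h.2.succ else 0)

theorem exists_att {m : ℕ} {p : Fin m → ℕ} {Q : ℕ} (hQ : 1 ≤ Q) (hQp : ∀ i, Q ≤ p i + 1) {h : Hb p}
    {a : Blk p} (ha : Att Q h a) : ∃ (t : Bool) (e : Fin m), a = attv p Q hQ hQp h t e := by
  obtain ⟨h0, δ, hδ1, hδm, hδ⟩ := ha
  have ht : ∃ t : Bool, a h.1 = if t then h.2.succ else 0 := by
    rcases h0 with h0 | h0
    · exact ⟨false, by simpa using h0⟩
    · exact ⟨true, by simpa using h0⟩
  obtain ⟨t, ht⟩ := ht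
  refine ⟨t, ⟨δ - 1, by omega⟩, ?_⟩
  unfold attv
  funext j
  by_cases hj : j = h.1
  · subst hj
    rw [Function.update_self, ht]
  · rw [Function.update_of_ne hj]
    apply Fin.ext
    simp only
    rw [hδ j hj, ht, show δ - 1 + 1 = δ by omega]

theorem edges_le {m : ℕ} (p : Fin m → ℕ) (Q b l : ℕ) (hQ : 1 ≤ Q) (hQp : ∀ i, Q ≤ p i + 1) :
    2 * (gr p Q b l).edgeSet.ncard ≤
      (∑ i, p i) * (∑ i, p i) + 2 * (l * ∑ i, p i) +
        b * (Fintype.card (Blk p) * (∑ i, p i) + 4 * (m * ∑ i, p i)) := by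
  classical
  set F1 : Finset (VV p b l × VV p b l) := (univ : Finset (Hb p × Hb p)).image
    fun z => (Sum.inl z.1, Sum.inl z.2) with hF1
  set F2 : Finset (VV p b l × VV p b l) := (univ : Finset (Hb p × Fin l)).image
    fun z => (Sum.inl z.1, Sum.inr (Sum.inr z.2)) with hF2
  set F3 : Finset (VV p b l × VV p b l) := (univ : Finset (Hb p × Fin l)).image
    fun z => (Sum.inr (Sum.inr z.2), Sum.inl z.1) with hF3
  set F4 : Finset (VV p b l × VV p b l) := (univ : Finset (Fin b × Blk p × Hb p)).image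
    fun z => (Sum.inr (Sum.inl (z.1, z.2.1)),
      Sum.inr (Sum.inl (z.1, Function.update z.2.1 z.2.2.1 (alt z.2.1 z.2.2)))) with hF4
  set F5 : Finset (VV p b l × VV p b l) := (univ : Finset (Fin b × Hb p × Bool × Fin m)).image
    fun z => (Sum.inl z.2.1, Sum.inr (Sum.inl (z.1, attv p Q hQ hQp z.2.1 z.2.2.1 z.2.2.2))) with hF5
  set F6 : Finset (VV p b l × VV p b l) := (univ : Finset (Fin b × Hb p × Bool × Fin m)).image
    fun z => (Sum.inr (Sum.inl (z.1, attv p Q hQ hQp z.2.1 z.2.2.1 z.2.2.2)), Sum.inl z.2.1) with hF6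
  have c1 : F1.card ≤ (∑ i, p i) * (∑ i, p i) := by
    refine Finset.card_image_le.trans ?_
    rw [Finset.card_univ, Fintype.card_prod, card_Hb]
  have c2 : F2.card ≤ (∑ i, p i) * l := by
    refine Finset.card_image_le.trans ?_
    rw [Finset.card_univ, Fintype.card_prod, card_Hb, Fintype.card_fin]
  have c3 : F3.card ≤ (∑ i, p i) * l := by
    refine Finset.card_image_le.trans ?_
    rw [Finset.card_univ, Fintype.card_prod, card_Hb, Fintype.card_fin]
  have c4 : F4.card ≤ b * (Fintype.card (Blk p) * ∑ i, p i) := by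
    refine Finset.card_image_le.trans ?_
    rw [Finset.card_univ, Fintype.card_prod, Fintype.card_prod, card_Hb, Fintype.card_fin]
  have c5 : F5.card ≤ b * ((∑ i, p i) * (2 * m)) := by
    refine Finset.card_image_le.trans ?_
    rw [Finset.card_univ, Fintype.card_prod, Fintype.card_prod, Fintype.card_prod, card_Hb,
      Fintype.card_fin, Fintype.card_fin, Fintype.card_bool]
  have c6 : F6.card ≤ b * ((∑ i, p i) * (2 * m)) := by
    refine Finset.card_image_le.trans ?_
    rw [Finset.card_univ, Fintype.card_prod, Fintype.card_prod, Fintype.card_prod, card_Hb,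
      Fintype.card_fin, Fintype.card_fin, Fintype.card_bool]
  have hsub : (univ : Finset (gr p Q b l).Dart).image (fun d => d.toProd) ⊆
      F1 ∪ (F2 ∪ (F3 ∪ (F4 ∪ (F5 ∪ F6)))) := by
    intro z hz
    rw [Finset.mem_image] at hz
    obtain ⟨d, _, rfl⟩ := hz
    obtain ⟨⟨u, v⟩, hd⟩ := d
    change adj p Q b l u v at hd
    simp only [Finset.mem_union]
    rcases u with g | ⟨⟨c, x⟩ | e⟩ <;> rcases v with h | ⟨⟨c', y⟩ | e'⟩
    · exact Or.inl (Finset.mem_image.2 ⟨(g, h), Finset.mem_univ _, rfl⟩)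
    · obtain ⟨t, e, he⟩ := exists_att hQ hQp hd
      refine Or.inr (Or.inr (Or.inr (Or.inr (Or.inl (Finset.mem_image.2
        ⟨(c', g, t, e), Finset.mem_univ _, ?_⟩)))))
      simp only at he ⊢
      rw [← he]
    · exact Or.inr (Or.inl (Finset.mem_image.2 ⟨(g, e'), Finset.mem_univ _, rfl⟩))
    · obtain ⟨t, e, he⟩ := exists_att hQ hQp hd
      refine Or.inr (Or.inr (Or.inr (Or.inr (Or.inr (Finset.mem_image.2
        ⟨(c, h, t, e), Finset.mem_univ _, ?_⟩)))))
      simp only at he ⊢
      rw [← he]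
    · obtain ⟨h1, h2⟩ := hd
      simp only at h1 h2
      subst h1
      obtain ⟨h, hh⟩ := exists_alt h2
      refine Or.inr (Or.inr (Or.inr (Or.inl (Finset.mem_image.2
        ⟨(c, x, h), Finset.mem_univ _, ?_⟩))))
      simp only
      rw [← hh]
    · exact False.elim hd
    · exact Or.inr (Or.inr (Or.inl (Finset.mem_image.2 ⟨(h, e), Finset.mem_univ _, rfl⟩)))
    · exact False.elim hd
    · exact False.elim hd
  have hcard : 2 * (gr p Q b l).edgeSet.ncard =
      ((univ : Finset (gr p Q b l).Dart).image (fun d => d.toProd)).card := by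
    rw [Finset.card_image_of_injective _ SimpleGraph.Dart.toProd_injective, Finset.card_univ,
      SimpleGraph.dart_card_eq_twice_card_edges, ← SimpleGraph.coe_edgeFinset, Set.ncard_coe_finset]
  rw [hcard]
  refine (Finset.card_le_card hsub).trans ((Finset.card_union_le _ _).trans ?_)
  have u1 := Finset.card_union_le F2 (F3 ∪ (F4 ∪ (F5 ∪ F6)))
  have u2 := Finset.card_union_le F3 (F4 ∪ (F5 ∪ F6))
  have u3 := Finset.card_union_le F4 (F5 ∪ F6)
  have u4 := Finset.card_union_le F5 F6
  calc F1.card + (F2 ∪ (F3 ∪ (F4 ∪ (F5 ∪ F6)))).card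
      ≤ F1.card + (F2.card + (F3.card + (F4.card + (F5.card + F6.card)))) := by omega
    _ ≤ (∑ i, p i) * (∑ i, p i) + ((∑ i, p i) * l + ((∑ i, p i) * l +
        (b * (Fintype.card (Blk p) * ∑ i, p i) + (b * ((∑ i, p i) * (2 * m)) +
          b * ((∑ i, p i) * (2 * m)))))) := by gcongr
    _ = _ := by ring

end Pool.Agent.Helper52.FO
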