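import Pool.Agent.Helper68.FTLimit

/-!
Order of magnitude of the edge excess of fault tolerant graphs: definitions of the construction.
-/

set_option autoImplicit false

namespace Pool.Agent.Helper52.FO

variable {m : ℕ}

/-- the cyclic distance from `i` to `j` -/
def off (i j : Fin m) : ℕ := (j.val + (m - i.val)) % m

/-- the vertices of a block (a Hamming graph) -/
abbrev Blk (p : Fin m → ℕ) := (i : Fin m) → Fin (p i + 1)

/-- the hubs -/
abbrev Hb (p : Fin m → ℕ) := (i : Fin m) × Fin (p i)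

/-- the value at `h.1` of the neighbour of `x` that leads to the hub `h` -/
def alt {p : Fin m → ℕ} (x : Blk p) (h : Hb p) : Fin (p h.1 + 1) :=
  if x h.1 = h.2.succ then 0 else h.2.succ

/-- the vertex `a` of a block is joined to the hub `h` -/
def Att {p : Fin m → ℕ} (Q : ℕ) (h : Hb p) (a : Blk p) : Prop :=
  (a h.1 = 0 ∨ a h.1 = h.2.succ) ∧
    ∃ δ, 1 ≤ δ ∧ δ ≤ m ∧ ∀ j, j ≠ h.1 → (a j).val = ((a h.1).val + δ) % Q

/-- two vertices of a block are adjacent: they differ in exactly one coordinate -/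
def One {p : Fin m → ℕ} (x y : Blk p) : Prop := ∃ i, x i ≠ y i ∧ ∀ j, j ≠ i → x j = y j

/-- hubs, `b` blocks, `l` further vertices -/
abbrev VV (p : Fin m → ℕ) (b l : ℕ) := Hb p ⊕ ((Fin b × Blk p) ⊕ Fin l)

/-- adjacency -/
def adj (p : Fin m → ℕ) (Q b l : ℕ) : VV p b l → VV p b l → Prop
  | Sum.inl g, Sum.inl h => g ≠ h
  | Sum.inl h, Sum.inr (Sum.inl y) => Att Q h y.2
  | Sum.inr (Sum.inl y), Sum.inl h => Att Q h y.2
  | Sum.inr (Sum.inl x), Sum.inr (Sum.inl y) => x.1 = y.1 ∧ One x.2 y.2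
  | Sum.inl _, Sum.inr (Sum.inr _) => True
  | Sum.inr (Sum.inr _), Sum.inl _ => True
  | Sum.inr (Sum.inr _), Sum.inr _ => False
  | Sum.inr (Sum.inl _), Sum.inr (Sum.inr _) => False

theorem One.symm {p : Fin m → ℕ} {x y : Blk p} (h : One x y) : One y x := by
  obtain ⟨i, h1, h2⟩ := h
  exact ⟨i, fun e => h1 e.symm, fun j hj => (h2 j hj).symm⟩

/-- the graph -/
def gr (p : Fin m → ℕ) (Q b l : ℕ) : SimpleGraph (VV p b l) where
  Adj := adj p Q b l
  symm := ⟨by
    rintro (g | ⟨x | e⟩) (h | ⟨y | e'⟩) H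
    · exact fun e => H e.symm
    · exact H
    · exact trivial
    · exact H
    · exact ⟨H.1.symm, H.2.symm⟩
    · exact H
    · exact trivial
    · exact H
    · exact H⟩
  loopless := ⟨by
    rintro (g | ⟨x | e⟩) H
    · exact H rfl
    · obtain ⟨i, h1, _⟩ := H.2
      exact h1 rfl
    · exact H⟩

end Pool.Agent.Helper52.FO
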