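import Pool.Agent.Helper52.FO.Block

/-!
The construction is fault tolerant.
-/

set_option autoImplicit false

namespace Pool.Agent.Helper52.FO

open Finset Pool.Agent.Helper68

section conn

variable {V : Type} {G : SimpleGraph V}

theorem conn_symm {S : Finset V} {n : ℕ} {u v : V} (h : Conn G S n u v) : Conn G S n v u := by
  obtain ⟨ℓ, hℓ, p, h0, h1, h2, h3⟩ := h
  refine ⟨ℓ, hℓ, fun i => p (ℓ - i), by simpa using h1, by simpa using h0, ?_, ?_⟩
  · intro i hi
    have := h2 (ℓ - (i + 1)) (by omega)
    have h4 : ℓ - (i + 1) + 1 = ℓ - i := by omega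
    rw [h4] at this
    exact this.symm
  · intro i hi
    exact h3 _ (by omega)

theorem conn_snoc {S : Finset V} {n : ℕ} {u v w : V} (h : Conn G S n u v) (hw : w ∉ S)
    (hvw : w = v ∨ G.Adj w v) : Conn G S (n + 1) u w :=
  conn_symm ((conn_symm h).cons hw hvw)

theorem conn_trans {S : Finset V} {n n' : ℕ} {u v w : V} (h : Conn G S n u v)
    (h' : Conn G S n' v w) : Conn G S (n + n') u w := by
  obtain ⟨ℓ, hℓ, p, h0, h1, h2, h3⟩ := h
  have key : ∀ s, s ≤ ℓ → Conn G S (s + n') (p (ℓ - s)) w := by
    intro s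
    induction s with
    | zero =>
      intro _
      rw [Nat.sub_zero, h1, Nat.zero_add]
      exact h'
    | succ s ih =>
      intro hs
      have h4 := ih (by omega)
      have h5 := h2 (ℓ - (s + 1)) (by omega)
      have h6 : ℓ - (s + 1) + 1 = ℓ - s := by omega
      rw [h6] at h5
      have h7 := h4.cons (h3 (ℓ - (s + 1)) (by omega)) (Or.inr h5)
      exact h7.mono (by omega)
  have h8 := key ℓ le_rfl
  rw [Nat.sub_self, h0] at h8
  exact h8.mono (by omega)

theorem pigeon {ι : Type} [Fintype ι] (P : ι → V → Prop) (S : Finset V)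
    (hS : S.card < Fintype.card ι) (hP : ∀ i j z, P i z → P j z → i = j) :
    ∃ i, ∀ z ∈ S, ¬ P i z := by
  classical
  by_contra hcon
  push Not at hcon
  choose f hf1 hf2 using hcon
  have h1 : (Finset.univ : Finset ι).card ≤ S.card := by
    refine Finset.card_le_card_of_injOn f (fun i _ => hf1 i) ?_
    intro i _ j _ hij
    exact hP i j (f i) (hf2 i) (by rw [hij]; exact hf2 j)
  rw [Finset.card_univ] at h1
  omega

end conn

variable {m : ℕ} {p : Fin m → ℕ} {Q b l : ℕ}

theorem chain {S : Finset (VV p b l)} {c : Fin b} {x a : Blk p} {i : Fin m} (ha : a i ≠ x i)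
    (hx : (Sum.inr (Sum.inl (c, x)) : VV p b l) ∉ S)
    (hS : ∀ t < m, (Sum.inr (Sum.inl (c, fan x a i t)) : VV p b l) ∉ S) :
    Conn (gr p Q b l) S m (Sum.inr (Sum.inl (c, x))) (Sum.inr (Sum.inl (c, a))) := by
  have hm := i.isLt
  have key : ∀ t, t < m → Conn (gr p Q b l) S (t + 1) (Sum.inr (Sum.inl (c, x)))
      (Sum.inr (Sum.inl (c, fan x a i t))) := by
    intro t
    induction t with
    | zero =>
      intro h0
      refine conn_snoc (Conn.refl hx) (hS 0 h0) (Or.inr ?_)
      exact ⟨rfl, (fan_zero x a i ha).symm⟩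
    | succ t ih =>
      intro ht
      refine conn_snoc (ih (by omega)) (hS _ ht) ?_
      rcases fan_step x a i t with h | h
      · left
        rw [h]
      · right
        exact ⟨rfl, h.symm⟩
  have h1 := key (m - 1) (by omega)
  rw [fan_last x a i (t := m - 1) (by omega)] at h1
  exact h1.mono (by omega)

/-- the inner vertices of the path from a vertex to a hub -/
def Via (tg : Blk p → Hb p → Blk p) : VV p b l → Hb p → VV p b l → Prop
  | Sum.inr (Sum.inl y), h, z =>
      ∃ t < m, z = Sum.inr (Sum.inl (y.1, fan y.2 (tg y.2 h) h.1 t))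
  | Sum.inl _, _, _ => False
  | Sum.inr (Sum.inr _), _, _ => False

theorem conn_hub (tg : Blk p → Hb p → Blk p)
    (htg : ∀ x h, Att Q h (tg x h) ∧ (tg x h) h.1 = alt x h ∧ ∀ j, (tg x h) j ≠ x j)
    {S : Finset (VV p b l)} (u : VV p b l) (h : Hb p) (hu : u ∉ S)
    (hh : (Sum.inl h : VV p b l) ∉ S) (hS : ∀ z ∈ S, ¬ Via tg u h z) :
    Conn (gr p Q b l) S (m + 1) u (Sum.inl h) := by
  rcases u with g | ⟨y | e⟩
  · by_cases hg : g = h
    · subst hg
      exact (Conn.refl hu).mono (by omega)
    · exact ((Conn.refl hh).cons hu (Or.inr hg)).mono (by omega)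
  · obtain ⟨c, x⟩ := y
    refine conn_snoc (chain (a := tg x h) (i := h.1) ((htg x h).2.2 h.1) hu ?_) hh (Or.inr ?_)
    · intro t ht hz
      exact hS _ hz ⟨t, ht, rfl⟩
    · exact (htg x h).1
  · exact ((Conn.refl hh).cons hu (Or.inr trivial)).mono (by omega)

theorem via_unique (hQ : 2 * m < Q) (tg : Blk p → Hb p → Blk p)
    (htg : ∀ x h, Att Q h (tg x h) ∧ (tg x h) h.1 = alt x h ∧ ∀ j, (tg x h) j ≠ x j)
    {u z : VV p b l} {h h' : Hb p} (h1 : Via tg u h z) (h2 : Via tg u h' z) : h = h' := by
  rcases u with g | ⟨y | e⟩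
  · exact h1.elim
  · obtain ⟨c, x⟩ := y
    obtain ⟨t, ht, rfl⟩ := h1
    obtain ⟨t', ht', he⟩ := h2
    have he' : fan x (tg x h) h.1 t = fan x (tg x h') h'.1 t' := by
      have := Sum.inl_injective (Sum.inr_injective he)
      exact congrArg Prod.snd this
    obtain ⟨a1, a2, a3⟩ := htg x h
    obtain ⟨a1', a2', a3'⟩ := htg x h'
    have hfst : h.1 = h'.1 := by
      by_contra hne
      have e := fan_disj a3 a3' he' hne
      rw [← e] at a1'
      exact hne (att_ne hQ a1 a1')
    obtain ⟨i, s⟩ := h
    obtain ⟨i', s'⟩ := h'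
    simp only at hfst
    subst hfst
    have e := congrFun he' i
    simp only [fan_self] at e
    simp only at a2 a2'
    rw [a2, a2'] at e
    rw [alt_inj x e]
  · exact h1.elim

theorem via_home {tg : Blk p → Hb p → Blk p} {u v z : VV p b l} {h h' : Hb p}
    (h1 : Via tg u h z) (h2 : Via tg v h' z) :
    ∃ c x y, u = Sum.inr (Sum.inl (c, x)) ∧ v = Sum.inr (Sum.inl (c, y)) := by
  rcases u with g | ⟨⟨c, x⟩ | e⟩
  · exact h1.elim
  · rcases v with g | ⟨⟨c', y⟩ | e⟩
    · exact h2.elim
    · obtain ⟨t, ht, rfl⟩ := h1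
      obtain ⟨t', ht', he⟩ := h2
      have := Sum.inl_injective (Sum.inr_injective he)
      have hc : c = c' := congrArg Prod.fst this
      subst hc
      exact ⟨c, x, y, rfl, rfl⟩
    · exact h2.elim
  · exact h1.elim

theorem via_not_hub {tg : Blk p → Hb p → Blk p} {u : VV p b l} {g h : Hb p}
    (h1 : Via tg u h (Sum.inl g)) : False := by
  rcases u with g | ⟨⟨c, x⟩ | e⟩
  · exact h1
  · obtain ⟨t, ht, he⟩ := h1
    exact Sum.inl_ne_inr he
  · exact h1

theorem conn_all (hQ : 2 * m < Q) (hQp : ∀ i, Q ≤ p i + 1) {S : Finset (VV p b l)}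
    (hS : S.card < Fintype.card (Hb p)) {u v : VV p b l} (hu : u ∉ S) (hv : v ∉ S) :
    Conn (gr p Q b l) S (2 * (m + 1)) u v := by
  classical
  choose tg htg using exists_target (p := p) hQ hQp
  by_cases hsame : ∃ c x y, u = Sum.inr (Sum.inl (c, x)) ∧ v = Sum.inr (Sum.inl (c, y))
  · obtain ⟨c, x, y, rfl, rfl⟩ := hsame
    obtain ⟨h, hh⟩ := pigeon (fun (h : Hb p) (z : VV p b l) =>
        z ≠ Sum.inr (Sum.inl (c, y)) ∧
        ∃ t < m, z = Sum.inr (Sum.inl (c, fan x (Function.update y h.1 (alt x h)) h.1 t))) S hS (by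
      rintro h h' z ⟨hz, t, ht, rfl⟩ ⟨hz', t', ht', he⟩
      have he' : fan x (Function.update y h.1 (alt x h)) h.1 t =
          fan x (Function.update y h'.1 (alt x h')) h'.1 t' := by
        have := Sum.inl_injective (Sum.inr_injective he)
        exact congrArg Prod.snd this
      have hfst : h.1 = h'.1 := by
        by_contra hne
        have e := path_disj (alt_ne x h) (alt_ne x h') he' hne
        exact hz (by rw [e])
      obtain ⟨i, s⟩ := h
      obtain ⟨i', s'⟩ := h'
      simp only at hfst
      subst hfst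
      have e := congrFun he' i
      simp only [fan_self, Function.update_self] at e
      rw [alt_inj x e])
    have hfree : ∀ t < m, (Sum.inr (Sum.inl (c, fan x (Function.update y h.1 (alt x h)) h.1 t)) :
        VV p b l) ∉ S := by
      intro t ht hz
      refine hh _ hz ⟨?_, t, ht, rfl⟩
      intro e
      rw [e] at hz
      exact hv hz
    have h1 := chain (Q := Q) (a := Function.update y h.1 (alt x h)) (i := h.1)
      (by rw [Function.update_self]; exact alt_ne x h) hu hfree
    refine (conn_snoc h1 hv ?_).mono (by omega)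
    by_cases he : alt x h = y h.1
    · left
      rw [he, Function.update_eq_self]
    · right
      refine ⟨rfl, h.1, ?_, ?_⟩
      · simp only [Function.update_self]
        exact fun e => he e.symm
      · intro j hj
        simp only [Function.update_of_ne hj]
  · obtain ⟨h, hh⟩ := pigeon (fun (h : Hb p) (z : VV p b l) =>
        z = Sum.inl h ∨ Via tg u h z ∨ Via tg v h z) S hS (by
      intro h h' z h1 h2
      rcases h1 with rfl | h1
      · rcases h2 with h2 | h2 | h2
        · exact Sum.inl_injective h2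
        · exact (via_not_hub h2).elim
        · exact (via_not_hub h2).elim
      · rcases h2 with rfl | h2
        · rcases h1 with h1 | h1
          · exact (via_not_hub h1).elim
          · exact (via_not_hub h1).elim
        · rcases h1 with h1 | h1 <;> rcases h2 with h2 | h2
          · exact via_unique hQ tg htg h1 h2
          · exact (hsame (via_home h1 h2)).elim
          · obtain ⟨c, x, y, e1, e2⟩ := via_home h1 h2
            exact (hsame ⟨c, y, x, e2, e1⟩).elim
          · exact via_unique hQ tg htg h1 h2)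
    have h0 : (Sum.inl h : VV p b l) ∉ S := fun hz => hh _ hz (Or.inl rfl)
    have h1 := conn_hub tg htg (Q := Q) u h hu h0 (fun z hz h2 => hh z hz (Or.inr (Or.inl h2)))
    have h2 := conn_hub tg htg (Q := Q) v h hv h0 (fun z hz h2 => hh z hz (Or.inr (Or.inr h2)))
    exact (conn_trans h1 (conn_symm h2)).mono (by omega)

end Pool.Agent.Helper52.FO
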