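import Pool.Agent.Helper52.FO.Lower
import Pool.Agent.Helper52.FO.Count
import Pool.Agent.Helper52.FO.Graph

/-!
Order of magnitude of the edge excess.
-/

set_option autoImplicit false

namespace Pool.Agent.Helper52.FO

open Finset Pool.Agent.Helper68

theorem zpow_rel {k r : ℕ} (hk : 1 ≤ k) (hr : 1 ≤ r) :
    0 < (k : ℝ) ^ (2 - (r : ℤ)) ∧ (k : ℝ) ^ (2 - (r : ℤ)) * (k : ℝ) ^ (r - 1) = k := by
  have h0 : (0 : ℝ) < k := by exact_mod_cast hk
  refine ⟨zpow_pos h0 _, ?_⟩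
  rw [← zpow_natCast, ← zpow_add₀ h0.ne']
  have e : (2 - (r : ℤ)) + ((r - 1 : ℕ) : ℤ) = 1 := by
    rw [Nat.cast_sub hr]
    push_cast
    ring
  rw [e, zpow_one]

theorem lower_final {r : ℕ} (hr : 1 ≤ r) {k : ℕ} (hk : 1 ≤ k) :
    ∃ n₀ : ℕ, ∀ n ≥ n₀, 1 / (20 * (r : ℝ) * 2 ^ (r - 1)) * (k : ℝ) ^ (2 - (r : ℤ)) * n ≤
      phihat n (2 * r + 1) k := by
  classical
  obtain ⟨hZ0, hZ⟩ := zpow_rel hk hr
  set Z := (k : ℝ) ^ (2 - (r : ℤ)) with hZdef
  set C0 := 1 + (2 * r + 1) * (2 * k) ^ (2 * r + 1) with hC0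
  refine ⟨2 * C0 + k + 1, fun n hn => ?_⟩
  obtain ⟨G, h1, h2⟩ := exists_opt (n := n) (d := 2 * r + 1) (k := k) (by omega)
  have h3 : G.edgeFinset.card = fhat n (2 * r + 1) k := by
    rw [← h2, ← SimpleGraph.coe_edgeFinset, Set.ncard_coe_finset]
  have h4 := lower hr hk h1 (by rw [Fintype.card_fin]; omega)
  rw [h3, Fintype.card_fin] at h4
  rw [← hC0] at h4
  have hr0 : (0 : ℝ) < r := by exact_mod_cast hr
  have h2p : (0 : ℝ) < 2 ^ (r - 1) := by positivity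
  have h5 : (2 : ℝ) * C0 ≤ n := by exact_mod_cast (show 2 * C0 ≤ n by omega)
  have hk0 : (0 : ℝ) < k := by exact_mod_cast hk
  have hB : ((r * (2 * k) ^ (r - 1) : ℕ) : ℝ) = r * 2 ^ (r - 1) * (k : ℝ) ^ (r - 1) := by
    push_cast
    rw [mul_pow]
    ring
  rw [hB] at h4
  unfold phihat
  set F := (fhat n (2 * r + 1) k : ℝ) - (k : ℝ) * n / 2 with hF
  have h6 : (k : ℝ) * (n / 2) ≤ 10 * (r * 2 ^ (r - 1) * (k : ℝ) ^ (r - 1)) * F := by
    refine le_trans ?_ h4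
    apply mul_le_mul_of_nonneg_left _ hk0.le
    linarith
  have h7 : (1 / (20 * (r : ℝ) * 2 ^ (r - 1)) * Z * n) *
      (10 * (r * 2 ^ (r - 1) * (k : ℝ) ^ (r - 1))) = k * (n / 2) := by
    have e : (1 / (20 * (r : ℝ) * 2 ^ (r - 1)) * Z * n) *
        (10 * (r * 2 ^ (r - 1) * (k : ℝ) ^ (r - 1))) = (Z * (k : ℝ) ^ (r - 1)) * (n / 2) := by
      field_simp
      ring
    rw [e, hZ]
  have h8 : 0 < 10 * (r * 2 ^ (r - 1) * (k : ℝ) ^ (r - 1)) := by positivity
  refine le_of_mul_le_mul_right ?_ h8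
  rw [h7]
  linarith

theorem upper_trivial {k n : ℕ} (hk : 1 ≤ k) (hn : 2 * k ≤ n) :
    phihat n 2 k ≤ (k : ℝ) * n / 2 := by
  have h := fhat_two_le hk hn
  have h1 : (fhat n 2 k : ℝ) ≤ (k : ℝ) * n := by
    have h2 : fhat n 2 k ≤ k * n := h.trans (Nat.mul_le_mul_left _ (Nat.sub_le _ _))
    exact_mod_cast h2
  unfold phihat
  linarith

/-- the sizes of the coordinates -/
def pp (m k : ℕ) (i : Fin m) : ℕ := if i.val = 0 then k - (m - 1) * (k / m) else k / m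

theorem pp_sum {m k : ℕ} (hm : 1 ≤ m) : ∑ i, pp m k i = k := by
  obtain ⟨m', rfl⟩ : ∃ m', m = m' + 1 := ⟨m - 1, by omega⟩
  rw [Fin.sum_univ_succ]
  have h1 : pp (m' + 1) k 0 = k - m' * (k / (m' + 1)) := by
    simp [pp]
  have h2 : ∀ i : Fin m', pp (m' + 1) k i.succ = k / (m' + 1) := by
    intro i
    simp [pp]
  rw [h1, Finset.sum_congr rfl (fun i _ => h2 i), Finset.sum_const, Finset.card_univ,
    Fintype.card_fin, smul_eq_mul]
  have h3 : m' * (k / (m' + 1)) ≤ k := by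
    calc m' * (k / (m' + 1)) ≤ (m' + 1) * (k / (m' + 1)) := Nat.mul_le_mul_right _ (by omega)
      _ ≤ k := Nat.mul_div_le _ _
  omega

theorem pp_ge {m k : ℕ} (i : Fin m) : k / m ≤ pp m k i := by
  have hm := i.isLt
  unfold pp
  split_ifs with h
  · have h3 : m * (k / m) ≤ k := Nat.mul_div_le _ _
    have h4 : m * (k / m) = (m - 1) * (k / m) + k / m := by
      obtain ⟨m', rfl⟩ : ∃ m', m = m' + 1 := ⟨m - 1, by omega⟩
      simp only [Nat.add_sub_cancel]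
      ring
    omega
  · exact le_rfl

theorem upper_main {m k : ℕ} (hm : 1 ≤ m) (hk : 2 * m ^ 2 ≤ k) :
    ∃ N : ℕ, 1 ≤ N ∧ k ^ m ≤ N * m ^ m ∧ ∀ n, k ≤ n →
      phihat n (2 * (m + 1)) k ≤ (N : ℝ) * k / 2 + 2 * m * k * n / N := by
  classical
  set p := pp m k with hp
  set Q := k / m + 1 with hQdef
  have hkm : 2 * m ≤ k / m := by
    rw [Nat.le_div_iff_mul_le (by omega)]
    calc 2 * m * m = 2 * m ^ 2 := by ring
      _ ≤ k := hk
  have hQ : 2 * m < Q := by omega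
  have hQp : ∀ i, Q ≤ p i + 1 := fun i => by
    have h0 : k / m ≤ p i := pp_ge i
    omega
  have hsum : ∑ i, p i = k := pp_sum hm
  have hk1 : 1 ≤ k := by
    have : 1 ≤ m ^ 2 := Nat.one_le_pow _ _ hm
    omega
  have hcardH : Fintype.card (Hb p) = k := by
    rw [Fintype.card_sigma]
    simp only [Fintype.card_fin]
    exact hsum
  have hcardB : Fintype.card (Blk p) = ∏ i, (p i + 1) := by
    rw [Fintype.card_pi]
    simp only [Fintype.card_fin]
  set N := Fintype.card (Blk p) with hN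
  have hN1 : 1 ≤ N := by
    rw [hcardB]
    exact Nat.one_le_iff_ne_zero.mpr (Finset.prod_ne_zero_iff.mpr (fun i _ => by omega))
  refine ⟨N, hN1, ?_, ?_⟩
  · have h1 : (k / m + 1) ^ m ≤ N := by
      rw [hcardB]
      calc (k / m + 1) ^ m = ∏ _i : Fin m, (k / m + 1) := by
            rw [Finset.prod_const, Finset.card_univ, Fintype.card_fin]
        _ ≤ ∏ i, (p i + 1) := Finset.prod_le_prod' (fun i _ => hQp i)
    have h2 : k ≤ (k / m + 1) * m := by
      have h3 := Nat.div_add_mod k m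
      have h4 := Nat.mod_lt k (show 0 < m by omega)
      nlinarith
    calc k ^ m ≤ ((k / m + 1) * m) ^ m := Nat.pow_le_pow_left h2 _
      _ = (k / m + 1) ^ m * m ^ m := by rw [mul_pow]
      _ ≤ N * m ^ m := Nat.mul_le_mul_right _ h1
  · intro n hn
    set b := (n - k) / N with hb
    set l := (n - k) % N with hl
    have hbl : N * b + l = n - k := Nat.div_add_mod _ _
    have hlN : l < N := Nat.mod_lt _ (by omega)
    have hcard : Fintype.card (VV p b l) = n := by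
      simp only [Fintype.card_sum, Fintype.card_prod, Fintype.card_fin]
      rw [hcardH, ← hN]
      have : b * N = N * b := mul_comm _ _
      omega
    have h1 : fhat n (2 * (m + 1)) k ≤ (gr p Q b l).edgeSet.ncard := by
      refine fhat_le (G := gr p Q b l) hcard ?_ le_rfl
      intro S hS u v hu hv
      refine conn_all hQ hQp ?_ hu hv
      rw [hcardH, hS]
      omega
    have h2 := edges_le p Q b l (by omega) hQp
    rw [hsum, ← hN] at h2
    have h3 : 2 * fhat n (2 * (m + 1)) k ≤ k * k + 2 * (l * k) + b * (N * k + 4 * (m * k)) :=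
      (Nat.mul_le_mul_left 2 h1).trans h2
    have h3' : 2 * (fhat n (2 * (m + 1)) k : ℝ) ≤
        k * k + 2 * (l * k) + b * (N * k + 4 * (m * k)) := by exact_mod_cast h3
    have h4 : (n : ℝ) = k + N * b + l := by
      have : n = k + N * b + l := by omega
      exact_mod_cast this
    have h5 : (l : ℝ) ≤ N := by exact_mod_cast hlN.le
    have hN0 : (0 : ℝ) < N := by exact_mod_cast hN1
    have hk0 : (0 : ℝ) ≤ k := Nat.cast_nonneg _
    have hm0 : (0 : ℝ) ≤ m := Nat.cast_nonneg _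
    have h6 : (b : ℝ) ≤ n / N := by
      rw [le_div_iff₀ hN0, h4]
      have : (0 : ℝ) ≤ l := Nat.cast_nonneg _
      nlinarith
    have h7 : 2 * (m : ℝ) * k * b ≤ 2 * m * k * n / N := by
      rw [mul_div_assoc]
      exact mul_le_mul_of_nonneg_left h6 (by positivity)
    have h8 : (l : ℝ) * k ≤ N * k := mul_le_mul_of_nonneg_right h5 hk0
    unfold phihat
    have h9 : (k : ℝ) * n = k * k + b * (N * k) + l * k := by rw [h4]; ring
    nlinarith

theorem order (d : ℕ) (hd : 2 ≤ d) :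
    ∃ c C : ℝ, 0 < c ∧ 0 < C ∧ ∀ k : ℕ, 1 ≤ k → ∃ n₀ : ℕ, ∀ n ≥ n₀,
      c * (k : ℝ) ^ (2 - ((d / 2 : ℕ) : ℤ)) * n ≤ phihat n d k ∧
      phihat n d k ≤ C * (k : ℝ) ^ (2 - ((d / 2 : ℕ) : ℤ)) * n := by
  set r := d / 2 with hr
  have hr1 : 1 ≤ r := by omega
  set m := r - 1 with hm
  refine ⟨1 / (20 * (r : ℝ) * 2 ^ (r - 1)), 2 * (m : ℝ) ^ (m + 1) + 1 + (2 * (m : ℝ) ^ 2) ^ m,
    by positivity, by positivity, ?_⟩
  intro k hk
  obtain ⟨hZ0, hZ⟩ := zpow_rel hk hr1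
  set Z := (k : ℝ) ^ (2 - (r : ℤ)) with hZdef
  obtain ⟨n1, hn1⟩ := lower_final hr1 hk
  have hk0 : (0 : ℝ) < k := by exact_mod_cast hk
  have hanti : ∀ n d', 1 ≤ d' → d' ≤ d → phihat n d k ≤ phihat n d' k := by
    intro n d' h1 h2
    have := fhat_anti (n := n) (k := k) h1 h2
    unfold phihat
    have h3 : (fhat n d k : ℝ) ≤ fhat n d' k := by exact_mod_cast this
    linarith
  have hlow : ∀ n, phihat n (2 * r + 1) k ≤ phihat n d k := by
    intro n
    have := fhat_anti (n := n) (k := k) (d := d) (d' := 2 * r + 1) (by omega) (by omega)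
    unfold phihat
    have h3 : (fhat n (2 * r + 1) k : ℝ) ≤ fhat n d k := by exact_mod_cast this
    linarith
  have hA : (0 : ℝ) ≤ 2 * (m : ℝ) ^ (m + 1) := by positivity
  have hB : (0 : ℝ) ≤ (2 * (m : ℝ) ^ 2) ^ m := by positivity
  by_cases hcase : 1 ≤ m ∧ 2 * m ^ 2 ≤ k
  · obtain ⟨N, hN1, hN2, hN3⟩ := upper_main hcase.1 hcase.2
    obtain ⟨n2, hn2⟩ := exists_nat_ge ((N : ℝ) * k / 2 / Z)
    refine ⟨max n1 (max k n2), fun n hn => ?_⟩
    have e1 : n1 ≤ n := (le_max_left _ _).trans hn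
    have e2 : k ≤ n := ((le_max_left _ _).trans (le_max_right _ _)).trans hn
    have e3 : n2 ≤ n := ((le_max_right _ _).trans (le_max_right _ _)).trans hn
    refine ⟨(hn1 n e1).trans (hlow n), ?_⟩
    have h1 := (hanti n (2 * (m + 1)) (by omega) (by omega)).trans (hN3 n e2)
    have hn0 : (0 : ℝ) ≤ n := Nat.cast_nonneg _
    have hN0 : (0 : ℝ) < N := by exact_mod_cast hN1
    have h2 : (N : ℝ) * k / 2 ≤ Z * n := by
      have h3 : (N : ℝ) * k / 2 / Z ≤ n := hn2.trans (by exact_mod_cast e3)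
      rw [div_le_iff₀ hZ0] at h3
      linarith
    have h4 : 2 * (m : ℝ) * k * n / N ≤ 2 * (m : ℝ) ^ (m + 1) * Z * n := by
      rw [div_le_iff₀ hN0]
      have h5 : (k : ℝ) ^ m ≤ N * (m : ℝ) ^ m := by exact_mod_cast hN2
      have h6 : (k : ℝ) ≤ Z * (N * (m : ℝ) ^ m) := by
        calc (k : ℝ) = Z * (k : ℝ) ^ m := hZ.symm
          _ ≤ Z * (N * (m : ℝ) ^ m) := mul_le_mul_of_nonneg_left h5 hZ0.le
      have hm0 : (0 : ℝ) ≤ m := Nat.cast_nonneg _
      calc 2 * (m : ℝ) * k * n = (2 * m * n) * k := by ring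
        _ ≤ (2 * m * n) * (Z * (N * (m : ℝ) ^ m)) :=
          mul_le_mul_of_nonneg_left h6 (by positivity)
        _ = 2 * (m : ℝ) ^ (m + 1) * Z * n * N := by ring
    have h7 : 0 ≤ (2 * (m : ℝ) ^ 2) ^ m * (Z * n) := by positivity
    nlinarith
  · refine ⟨max n1 (2 * k), fun n hn => ?_⟩
    have e1 : n1 ≤ n := (le_max_left _ _).trans hn
    have e2 : 2 * k ≤ n := (le_max_right _ _).trans hn
    refine ⟨(hn1 n e1).trans (hlow n), ?_⟩
    have h1 := (hanti n 2 (by omega) hd).trans (upper_trivial hk e2)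
    have hn0 : (0 : ℝ) ≤ n := Nat.cast_nonneg _
    have h2 : (k : ℝ) ^ m ≤ (2 * (m : ℝ) ^ 2) ^ m := by
      rcases Nat.eq_zero_or_pos m with h0 | h0
      · rw [h0, pow_zero, pow_zero]
      · have h3 : k ≤ 2 * m ^ 2 := by
          by_contra h4
          exact hcase ⟨h0, by omega⟩
        have h4 : (k : ℝ) ≤ 2 * (m : ℝ) ^ 2 := by exact_mod_cast h3
        exact pow_le_pow_left₀ hk0.le h4 _
    have h5 : (k : ℝ) ≤ Z * (2 * (m : ℝ) ^ 2) ^ m := by
      calc (k : ℝ) = Z * (k : ℝ) ^ m := hZ.symm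
        _ ≤ _ := mul_le_mul_of_nonneg_left h2 hZ0.le
    have h6 : (k : ℝ) * n ≤ Z * (2 * (m : ℝ) ^ 2) ^ m * n := mul_le_mul_of_nonneg_right h5 hn0
    have h7 : 0 ≤ 2 * (m : ℝ) ^ (m + 1) * (Z * n) := by positivity
    have h8 : 0 ≤ Z * n := by positivity
    have h9 : 0 ≤ Z * (2 * (m : ℝ) ^ 2) ^ m * n := by positivity
    nlinarith

end Pool.Agent.Helper52.FO
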