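import Pool.Agent.Helper68.FTLimit

/-!
Lower bound. PLAN. `H := hubs G (2 * k)` (degree > 2k), low = not in H. `T u := ((Icc 1 r).biUnion (R G H · u)) ∩ H`.
(1) for low `u ≠ v`, `v ∉ Ball G H (2r+1) u`: `k ≤ |T u| + |T v|` (else `S = T u ∪ T v` has `≤ k-1` elements; `FaultTolerant.path`
and `path_cases` with `d = 2r+1`: both hub times are `≥ r+1`, sum `≥ 2r+2`). Hence all but `1 + (2r+1)(2k)^(2r+1)`
(`card_Ball_le`) low `v` have `k ≤ 2|T v|` (if some low `u` has `2|T u| < k` use (1) with this `u`).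
(2) for every `g : V → ℕ`: `∑ u ∈ Hᶜ, ∑ x ∈ R G H t u \ H, g x ≤ (2k)^t * ∑ x ∈ Hᶜ, g x` (induction on `t` for all `g`,
`sum_swap` of FTLower5 with `g' y = ∑ x ∈ N(y) \ H, g x`). With `g x = |N(x) ∩ H|`:
`∑ u ∈ Hᶜ, |T u| ≤ r * (2k)^(r-1) * E`, `E = ∑ u ∈ Hᶜ, |N(u) ∩ H|`.
(3) `4 e ≥ 2 k n + E` and `4 e ≥ 2 k n + 2 k |H|` (all degrees `≥ k` by `FaultTolerant.le_degree`, hub degrees `≥ 2k`,
`∑ h ∈ H, deg h ≥ E`, see `two_mul_edges_ge`).
So `k (n - |H| - C0) ≤ 2 E r (2k)^(r-1) ≤ 8 φ r (2k)^(r-1)`, `k |H| ≤ 2 φ`, total `k (n - C0) ≤ 10 r (2k)^(r-1) φ`.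
-/

set_option autoImplicit false

namespace Pool.Agent.Helper52.FO

open Pool.Agent.Helper68 Finset

variable {V : Type} [Fintype V] [DecidableEq V] {G : SimpleGraph V} [DecidableRel G.Adj]

/-- The hubs reached in at most `r` steps. -/
def TT (G : SimpleGraph V) [DecidableRel G.Adj] (H : Finset V) (r : ℕ) (u : V) : Finset V :=
  ((Finset.Icc 1 r).biUnion fun m => R G H m u) ∩ H

theorem TT_pair {r k : ℕ} (hk : 1 ≤ k) (h : FaultTolerant G (2 * r + 1) k)
    (hn : k + 1 ≤ Fintype.card V) {H : Finset V} {u v : V} (hu : u ∉ H) (hv : v ∉ H) (hne : v ≠ u)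
    (hB : v ∉ Ball G H (2 * r + 1) u) : k ≤ (TT G H r u).card + (TT G H r v).card := by
  by_contra hcon
  have hS : (TT G H r u ∪ TT G H r v).card ≤ k - 1 := by
    have := Finset.card_union_le (TT G H r u) (TT G H r v)
    omega
  have hTH : ∀ w x, x ∈ TT G H r w → x ∈ H := fun w x hx => (Finset.mem_inter.1 hx).2
  obtain ⟨ℓ, hℓ, p, hp⟩ := h.path hk hn hS (u := u) (v := v)
    (fun hx => hu (by
      rcases Finset.mem_union.1 hx with hx | hx
      · exact hTH _ _ hx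
      · exact hTH _ _ hx))
    (fun hx => hv (by
      rcases Finset.mem_union.1 hx with hx | hx
      · exact hTH _ _ hx
      · exact hTH _ _ hx))
  rcases path_cases (H := H) hp hℓ hu hv hne with h1 | ⟨t, t', _, _, htt, h1, h2, h3, h4, h5, h6, h7, h8⟩
  · exact hB h1
  · have ht : r + 1 ≤ t := by
      by_contra hc
      apply h3
      refine Finset.mem_union_left _ (Finset.mem_inter.2 ⟨Finset.mem_biUnion.2 ⟨t, ?_, h7⟩, h1⟩)
      rw [Finset.mem_Icc]
      omega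
    have ht' : r + 1 ≤ t' := by
      by_contra hc
      apply h4
      refine Finset.mem_union_right _ (Finset.mem_inter.2 ⟨Finset.mem_biUnion.2 ⟨t', ?_, h8⟩, h2⟩)
      rw [Finset.mem_Icc]
      omega
    omega

omit [Fintype V] in
theorem sum_bU_le (s : Finset V) (t : V → Finset V) (g : V → ℕ) :
    ∑ y ∈ s.biUnion t, g y ≤ ∑ x ∈ s, ∑ y ∈ t x, g y := by
  induction s using Finset.induction_on with
  | empty => simp
  | insert a s ha ih =>
    rw [Finset.biUnion_insert, Finset.sum_insert ha]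
    have := Finset.sum_union_inter (s₁ := t a) (s₂ := s.biUnion t) (f := g)
    omega

theorem sum_R {D : ℕ} {H : Finset V} (hD : ∀ x ∉ H, G.degree x ≤ D) (t : ℕ) : ∀ g : V → ℕ,
    ∑ u ∈ Hᶜ, ∑ x ∈ R G H t u \ H, g x ≤ D ^ t * ∑ x ∈ Hᶜ, g x := by
  induction t with
  | zero =>
    intro g
    rw [pow_zero, one_mul]
    refine Finset.sum_le_sum fun u _ => ?_
    have h1 : R G H 0 u \ H ⊆ {u} := Finset.sdiff_subset
    calc ∑ x ∈ R G H 0 u \ H, g x ≤ ∑ x ∈ ({u} : Finset V), g x := Finset.sum_le_sum_of_subset h1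
      _ = g u := Finset.sum_singleton _ _
  | succ t ih =>
    intro g
    calc ∑ u ∈ Hᶜ, ∑ x ∈ R G H (t + 1) u \ H, g x
        ≤ ∑ u ∈ Hᶜ, ∑ x ∈ R G H t u \ H, ∑ y ∈ G.neighborFinset x \ H, g y := by
          refine Finset.sum_le_sum fun u _ => ?_
          have h1 : R G H (t + 1) u \ H ⊆ (R G H t u \ H).biUnion fun x => G.neighborFinset x \ H := by
            intro y hy
            rw [Finset.mem_sdiff] at hy
            have h2 : y ∈ (R G H t u \ H).biUnion fun x => G.neighborFinset x := hy.1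
            rw [Finset.mem_biUnion] at h2 ⊢
            obtain ⟨x, hx, hy2⟩ := h2
            exact ⟨x, hx, Finset.mem_sdiff.2 ⟨hy2, hy.2⟩⟩
          refine (Finset.sum_le_sum_of_subset h1).trans ?_
          exact sum_bU_le _ _ _
      _ ≤ D ^ t * ∑ x ∈ Hᶜ, ∑ y ∈ G.neighborFinset x \ H, g y := ih _
      _ = D ^ t * ∑ y ∈ Hᶜ, g y * (G.neighborFinset y \ H).card := by rw [sum_swap]
      _ ≤ D ^ t * ∑ y ∈ Hᶜ, g y * D := by
          refine Nat.mul_le_mul_left _ (Finset.sum_le_sum fun y hy => Nat.mul_le_mul_left _ ?_)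
          refine (Finset.card_le_card Finset.sdiff_subset).trans ?_
          rw [SimpleGraph.card_neighborFinset_eq_degree]
          exact hD y (Finset.mem_compl.1 hy)
      _ = D ^ (t + 1) * ∑ x ∈ Hᶜ, g x := by
          rw [← Finset.sum_mul]
          ring

theorem sum_TT {D r : ℕ} {H : Finset V} (hD1 : 1 ≤ D) (hD : ∀ x ∉ H, G.degree x ≤ D) :
    ∑ u ∈ Hᶜ, (TT G H r u).card ≤
      r * D ^ (r - 1) * ∑ u ∈ Hᶜ, (G.neighborFinset u ∩ H).card := by
  have h1 : ∀ u, (TT G H r u).card ≤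
      ∑ m ∈ Finset.range r, ∑ x ∈ R G H m u \ H, (G.neighborFinset x ∩ H).card := by
    intro u
    have h2 : TT G H r u ⊆ (Finset.range r).biUnion fun m =>
        (R G H m u \ H).biUnion fun x => G.neighborFinset x ∩ H := by
      intro y hy
      unfold TT at hy
      rw [Finset.mem_inter, Finset.mem_biUnion] at hy
      obtain ⟨⟨m, hm, hy1⟩, hy2⟩ := hy
      rw [Finset.mem_Icc] at hm
      obtain ⟨m', rfl⟩ : ∃ m', m = m' + 1 := ⟨m - 1, by omega⟩
      have h3 : y ∈ (R G H m' u \ H).biUnion fun x => G.neighborFinset x := hy1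
      rw [Finset.mem_biUnion] at h3
      obtain ⟨x, hx, hy3⟩ := h3
      rw [Finset.mem_biUnion]
      refine ⟨m', Finset.mem_range.2 (by omega), ?_⟩
      rw [Finset.mem_biUnion]
      exact ⟨x, hx, Finset.mem_inter.2 ⟨hy3, hy2⟩⟩
    refine (Finset.card_le_card h2).trans (Finset.card_biUnion_le.trans ?_)
    exact Finset.sum_le_sum fun m _ => Finset.card_biUnion_le
  calc ∑ u ∈ Hᶜ, (TT G H r u).card
      ≤ ∑ u ∈ Hᶜ, ∑ m ∈ Finset.range r, ∑ x ∈ R G H m u \ H, (G.neighborFinset x ∩ H).card :=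
        Finset.sum_le_sum fun u _ => h1 u
    _ = ∑ m ∈ Finset.range r, ∑ u ∈ Hᶜ, ∑ x ∈ R G H m u \ H, (G.neighborFinset x ∩ H).card :=
        Finset.sum_comm
    _ ≤ ∑ m ∈ Finset.range r, D ^ (r - 1) * ∑ u ∈ Hᶜ, (G.neighborFinset u ∩ H).card := by
        refine Finset.sum_le_sum fun m hm => (sum_R hD m _).trans (Nat.mul_le_mul_right _ ?_)
        rw [Finset.mem_range] at hm
        exact Nat.pow_le_pow_right hD1 (by omega)
    _ = r * D ^ (r - 1) * ∑ u ∈ Hᶜ, (G.neighborFinset u ∩ H).card := by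
        rw [Finset.sum_const, Finset.card_range, smul_eq_mul, mul_assoc]

theorem few_small {r k : ℕ} (hk : 1 ≤ k) (h : FaultTolerant G (2 * r + 1) k)
    (hn : k + 1 ≤ Fintype.card V) {H : Finset V} (hD : ∀ x ∉ H, G.degree x ≤ 2 * k) :
    (Hᶜ.filter fun v => ¬ k ≤ 2 * (TT G H r v).card).card ≤ 1 + (2 * r + 1) * (2 * k) ^ (2 * r + 1) := by
  rcases (Hᶜ.filter fun v => ¬ k ≤ 2 * (TT G H r v).card).eq_empty_or_nonempty with h0 | ⟨u, hu⟩
  · rw [h0, Finset.card_empty]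
    exact Nat.zero_le _
  · rw [Finset.mem_filter, Finset.mem_compl] at hu
    have hsub : (Hᶜ.filter fun v => ¬ k ≤ 2 * (TT G H r v).card) ⊆ {u} ∪ Ball G H (2 * r + 1) u := by
      intro v hv
      rw [Finset.mem_filter, Finset.mem_compl] at hv
      by_contra hcon
      rw [Finset.mem_union, Finset.mem_singleton, not_or] at hcon
      have := TT_pair (r := r) hk h hn hu.1 hv.1 hcon.1 hcon.2
      omega
    refine (Finset.card_le_card hsub).trans ((Finset.card_union_le _ _).trans ?_)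
    rw [Finset.card_singleton]
    exact Nat.add_le_add_left (card_Ball_le (by omega) hD _ _) _

theorem lower {V : Type} [Fintype V] [DecidableEq V] {G : SimpleGraph V} [DecidableRel G.Adj]
    {r k : ℕ} (hr : 1 ≤ r) (hk : 1 ≤ k) (h : FaultTolerant G (2 * r + 1) k)
    (hn : k + 1 ≤ Fintype.card V) :
    (k : ℝ) * ((Fintype.card V : ℝ) - (1 + (2 * r + 1) * (2 * k) ^ (2 * r + 1) : ℕ)) ≤
      10 * (r * (2 * k) ^ (r - 1) : ℕ) *
        ((G.edgeFinset.card : ℝ) - (k : ℝ) * (Fintype.card V : ℝ) / 2) := by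
  set H : Finset V := hubs G (2 * k) with hH
  have hD : ∀ x ∉ H, G.degree x ≤ 2 * k := fun x hx => degree_le_of_notMem_hubs hx
  set C0 : ℕ := 1 + (2 * r + 1) * (2 * k) ^ (2 * r + 1) with hC0
  set P : ℕ := r * (2 * k) ^ (r - 1) with hP
  set E : ℕ := ∑ u ∈ Hᶜ, (G.neighborFinset u ∩ H).card with hE
  have hP1 : 1 ≤ P := Nat.mul_pos hr (Nat.pow_pos (by omega))
  have hcard : Hᶜ.card + H.card = Fintype.card V := Finset.card_compl_add_card H
  -- the low vertices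
  have f1 : k * Hᶜ.card ≤ 2 * ∑ u ∈ Hᶜ, (TT G H r u).card + k * C0 := by
    have h1 := few_small (r := r) hk h hn hD
    have h2 : ∑ _u ∈ Hᶜ, k ≤ ∑ u ∈ Hᶜ, (2 * (TT G H r u).card +
        if ¬ k ≤ 2 * (TT G H r u).card then k else 0) := by
      refine Finset.sum_le_sum fun u _ => ?_
      split_ifs <;> omega
    rw [Finset.sum_add_distrib, ← Finset.sum_filter, Finset.sum_const, Finset.sum_const, smul_eq_mul,
      smul_eq_mul, ← Finset.mul_sum] at h2
    have h3 : (Hᶜ.filter fun v => ¬ k ≤ 2 * (TT G H r v).card).card * k ≤ C0 * k :=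
      Nat.mul_le_mul_right _ h1
    calc k * Hᶜ.card = Hᶜ.card * k := mul_comm _ _
      _ ≤ _ := h2
      _ ≤ 2 * ∑ u ∈ Hᶜ, (TT G H r u).card + C0 * k := Nat.add_le_add_left h3 _
      _ = _ := by rw [mul_comm C0 k]
  have f2 : ∑ u ∈ Hᶜ, (TT G H r u).card ≤ P * E := sum_TT (by omega) hD
  -- the edges
  have hdeg : ∀ u, k ≤ G.degree u := fun u => h.le_degree hk hn u
  have g1 : E + k * Hᶜ.card ≤ 2 * G.edgeFinset.card := by
    refine le_trans ?_ (two_mul_edges_ge (G := G) H)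
    have h1 : ∑ u ∈ Hᶜ, (2 * (G.neighborFinset u ∩ H).card + (G.neighborFinset u \ H).card) =
        E + ∑ u ∈ Hᶜ, G.degree u := by
      rw [hE, ← Finset.sum_add_distrib]
      refine Finset.sum_congr rfl fun u _ => ?_
      rw [← SimpleGraph.card_neighborFinset_eq_degree,
        ← Finset.card_inter_add_card_sdiff (G.neighborFinset u) H]
      ring
    rw [h1]
    refine Nat.add_le_add_left ?_ _
    calc k * Hᶜ.card = ∑ _u ∈ Hᶜ, k := by rw [Finset.sum_const, smul_eq_mul, mul_comm]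
      _ ≤ _ := Finset.sum_le_sum fun u _ => hdeg u
  have g2 : k * Hᶜ.card + 2 * k * H.card ≤ 2 * G.edgeFinset.card := by
    rw [← G.sum_degrees_eq_twice_card_edges, ← Finset.sum_compl_add_sum H]
    refine Nat.add_le_add ?_ ?_
    · calc k * Hᶜ.card = ∑ _u ∈ Hᶜ, k := by rw [Finset.sum_const, smul_eq_mul, mul_comm]
        _ ≤ _ := Finset.sum_le_sum fun u _ => hdeg u
    · calc 2 * k * H.card = ∑ _u ∈ H, 2 * k := by rw [Finset.sum_const, smul_eq_mul, mul_comm]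
        _ ≤ _ := Finset.sum_le_sum fun u hu => by
          rw [hH] at hu
          exact ((Finset.mem_filter.1 hu).2).le
  -- real numbers
  have r1 : (k : ℝ) * (Hᶜ.card : ℝ) ≤ 2 * ((P : ℝ) * (E : ℝ)) + (k : ℝ) * (C0 : ℝ) := by
    have : k * Hᶜ.card ≤ 2 * (P * E) + k * C0 := f1.trans (Nat.add_le_add_right (Nat.mul_le_mul_left _ f2) _)
    exact_mod_cast this
  have r2 : (E : ℝ) + (k : ℝ) * (Hᶜ.card : ℝ) ≤ 2 * (G.edgeFinset.card : ℝ) := by exact_mod_cast g1
  have r3 : (k : ℝ) * (Hᶜ.card : ℝ) + 2 * (k : ℝ) * (H.card : ℝ) ≤ 2 * (G.edgeFinset.card : ℝ) := by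
    exact_mod_cast g2
  have r4 : (Fintype.card V : ℝ) = (Hᶜ.card : ℝ) + (H.card : ℝ) := by exact_mod_cast hcard.symm
  have hPr : (1 : ℝ) ≤ (P : ℝ) := by exact_mod_cast hP1
  set φ : ℝ := (G.edgeFinset.card : ℝ) - (k : ℝ) * (Fintype.card V : ℝ) / 2 with hφ
  have q1 : (k : ℝ) * (H.card : ℝ) ≤ 2 * φ := by
    rw [hφ, r4]
    linarith
  have q2 : (E : ℝ) ≤ 4 * φ := by
    rw [hφ, r4]
    linarith
  have hφ0 : 0 ≤ φ := by
    have : 0 ≤ (k : ℝ) * (H.card : ℝ) := by positivity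
    linarith
  have q3 : (P : ℝ) * (E : ℝ) ≤ (P : ℝ) * (4 * φ) := mul_le_mul_of_nonneg_left q2 (by linarith)
  have q4 : φ ≤ (P : ℝ) * φ := le_mul_of_one_le_left hφ0 hPr
  rw [r4]
  have e1 : (k : ℝ) * ((Hᶜ.card : ℝ) + (H.card : ℝ) - (C0 : ℝ)) =
      (k : ℝ) * (Hᶜ.card : ℝ) + (k : ℝ) * (H.card : ℝ) - (k : ℝ) * (C0 : ℝ) := by ring
  rw [e1]
  linarith

end Pool.Agent.Helper52.FO
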