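import Pool.Agent.Helper52.FO.Final

/-!
# MP_1438b7_co, all `d` and all `k`

The order of magnitude of `phihat n d k / n` as a function of `k`, for every fixed `d`.
-/

namespace Pool.Agent.Results.MP_1438b7_co.OrderOfMagnitude

open Pool.Agent.Helper68

/-- For every `d ≥ 2` there are `c, C > 0` such that for every `k ≥ 1` and all large `n` the number
`phihat n d k` lies between `c k ^ (2 - r) n` and `C k ^ (2 - r) n`, where `r = ⌊d / 2⌋`. -/
theorem result (d : ℕ) (hd : 2 ≤ d) :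
    ∃ c C : ℝ, 0 < c ∧ 0 < C ∧ ∀ k : ℕ, 1 ≤ k → ∃ n₀ : ℕ, ∀ n ≥ n₀,
      c * (k : ℝ) ^ (2 - ((d / 2 : ℕ) : ℤ)) * n ≤ phihat n d k ∧
      phihat n d k ≤ C * (k : ℝ) ^ (2 - ((d / 2 : ℕ) : ℤ)) * n :=
  Pool.Agent.Helper52.FO.order d hd

end Pool.Agent.Results.MP_1438b7_co.OrderOfMagnitude
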